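import Pool.Agent.H102R3.DMFinal

set_option autoImplicit false

/-!
# MP_6c8c83_pr, Q2: uniform mixing of random walk on dynamical percolation on transitive graphs

The answer to Q2 is yes, with the explicit constant `C_d = 320 d + 56`.
All definitions are in `Pool.Agent.H102R3.DMGraph`:
* `transition A t z w` is the entry `(z, w)` of `exp (t A)`;
* `mixedSet A π` is the set of times `t ≥ 0` with `|P_t(z,w)/π(w) - 1| ≤ 1/4` for all `z, w`;
* `mixTime A π` is its infimum, the `L^∞` mixing time;
* `srwGen G` is the generator of rate-one simple random walk;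
* `fullGen G μ p` is the generator of the full process on `V × {0,1}^E`;
* `unif V` and `fullPi G p` are the stationary laws.
-/

namespace Pool.Agent.Results.MP_6c8c83_pr.UniformMixing

open Pool.H102.DM

theorem srw_ne {V : Type} [Fintype V] [DecidableEq V] (G : SimpleGraph V) [DecidableRel G.Adj]
    (d : ℕ) (hG : G.Connected) (hd : ∀ x, G.degree x = d) :
    (mixedSet (srwGen G) (unif V)).Nonempty := by
  rcases Nat.eq_zero_or_pos d with h | h
  · subst h
    have hno : ∀ x y, ¬ G.Adj x y := by
      intro x y h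
      have h1 : 0 < G.degree x := (G.degree_pos_iff_exists_adj x).2 ⟨y, h⟩
      rw [hd] at h1
      exact lt_irrefl _ h1
    have hsub : ∀ x y : V, x = y := by
      intro x y
      obtain ⟨w⟩ := hG.preconnected x y
      cases w with
      | nil => rfl
      | cons h _ => exact absurd h (hno _ _)
    obtain ⟨x0⟩ := hG.nonempty
    have hcard : Fintype.card V = 1 := Fintype.card_eq_one_iff.2 ⟨x0, fun y => hsub y x0⟩
    refine ⟨0, le_rfl, fun z w => ?_⟩
    unfold transition
    rw [sg_zero, if_pos (hsub z w), unif, hcard]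
    simp
  · exact srw_nonempty G d hd h hG

/-- Q2 holds: for every finite connected vertex-transitive graph of degree `d` and all
`μ ∈ (0,1]`, `p ∈ (0,1)`, the `L^∞` mixing time of the full process is at most
`(320 d + 56) [(μ p)⁻¹ t_mix^{SRW,(∞)} + μ⁻¹ |log (1 - p)|]`
(both mixing times are infima of nonempty sets). -/
theorem result (d : ℕ) (V : Type) [Fintype V] [DecidableEq V] (G : SimpleGraph V)
    [DecidableRel G.Adj] (hG : G.Connected) (htr : ∀ x y : V, ∃ φ : G ≃g G, φ x = y)
    (hd : ∀ x, G.degree x = d) (μ p : ℝ) (hμ : 0 < μ) (hμ1 : μ ≤ 1) (hp : 0 < p) (hp1 : p < 1) :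
    (mixedSet (srwGen G) (unif V)).Nonempty ∧
    (mixedSet (fullGen G μ p) (fullPi G p)).Nonempty ∧
    mixTime (fullGen G μ p) (fullPi G p) ≤ (320 * d + 56) *
      ((μ * p)⁻¹ * mixTime (srwGen G) (unif V) + μ⁻¹ * |Real.log (1 - p)|) := by
  refine ⟨srw_ne G d hG hd, ?_⟩
  have hbdd : BddBelow (mixedSet (fullGen G μ p) (fullPi G p)) := ⟨0, fun t ht => ht.1⟩
  rcases Nat.eq_zero_or_pos d with h | h
  · subst h
    have h0 := main_zero G hG hd μ p
    refine ⟨⟨0, h0⟩, (csInf_le hbdd h0).trans ?_⟩
    have h1 : 0 ≤ mixTime (srwGen G) (unif V) := Real.sInf_nonneg fun t ht => ht.1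
    have h2 : 0 < μ * p := mul_pos hμ hp
    positivity
  · obtain ⟨T, hT, hTle⟩ := main_pos G d h hG htr hd μ p hμ hμ1 hp hp1
    exact ⟨⟨T, hT⟩, (csInf_le hbdd hT).trans hTle⟩

end Pool.Agent.Results.MP_6c8c83_pr.UniformMixing
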